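import Mathlib
set_option autoImplicit false
namespace Pool.Agent.Results.MP_c32163_co.DOptimalTie

theorem det5 (a b c d e f g h i j : ℝ) :
    (!![(a+b+c+d)/2 + 1/5, -a/2 + 1/5, -b/2 + 1/5, -c/2 + 1/5, -d/2 + 1/5;
        -a/2 + 1/5, (a+e+f+g)/2 + 1/5, -e/2 + 1/5, -f/2 + 1/5, -g/2 + 1/5;
        -b/2 + 1/5, -e/2 + 1/5, (b+e+h+i)/2 + 1/5, -h/2 + 1/5, -i/2 + 1/5;
        -c/2 + 1/5, -f/2 + 1/5, -h/2 + 1/5, (c+f+h+j)/2 + 1/5, -j/2 + 1/5;
        -d/2 + 1/5, -g/2 + 1/5, -i/2 + 1/5, -j/2 + 1/5, (d+g+i+j)/2 + 1/5] : Matrix (Fin 5) (Fin 5) ℝ).det =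
    5 / 16 * (!![a+e+f+g, -e, -f, -g; -e, b+e+h+i, -h, -i; -f, -h, c+f+h+j, -j; -g, -i, -j, d+g+i+j] : Matrix (Fin 4) (Fin 4) ℝ).det := by
  simp [Matrix.det_succ_row_zero, Fin.sum_univ_succ, Fin.succAbove, Fin.succ, Matrix.submatrix]
  ring

/-- 4x4 determinant by complementary minors -/
def tau (a b c d e f g h i j : ℤ) : ℤ :=
  let p := a+e+f+g
  let q := b+e+h+i
  let r := c+f+h+j
  let s := d+g+i+j
  -- rows: (p,-e,-f,-g),(-e,q,-h,-i),(-f,-h,r,-j),(-g,-i,-j,s)
  (p*q - e*e) * (r*s - j*j) - (p*(-h) - f*e) * ((-h)*s - j*i) + (p*(-i) - g*e) * ((h*j) + r*i)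
  + ((-e)*(-h) + f*q) * ((-f)*s - j*g) - ((-e)*(-i) + g*q) * ((f*j) + r*g) + ((f*i) - g*h) * ((f*i) - h*g)

def chkB : Bool := (List.range (7)).all fun a : ℕ => (List.range (7 - a)).all fun b : ℕ => (List.range (7 - a - b)).all fun c : ℕ => (List.range (7 - a - b - c)).all fun d : ℕ => (List.range (7 - a - b - c - d)).all fun e : ℕ => (List.range (7 - a - b - c - d - e)).all fun f : ℕ => (List.range (7 - a - b - c - d - e - f)).all fun g : ℕ => (List.range (7 - a - b - c - d - e - f - g)).all fun h : ℕ => (List.range (7 - a - b - c - d - e - f - g - h)).all fun i : ℕ => (List.range (7 - a - b - c - d - e - f - g - h - i)).all fun j : ℕ => 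
   decide (tau (a : ℤ) (b : ℤ) (c : ℤ) (d : ℤ) (e : ℤ) (f : ℤ) (g : ℤ) (h : ℤ) (i : ℤ) (j : ℤ) ≤ 12)

theorem chkB_true : chkB = true := by decide +kernel

theorem chk (a b c d e f g h i j : ℕ) (hs : a + b + c + d + e + f + g + h + i + j ≤ 6) :
    tau (a : ℤ) (b : ℤ) (c : ℤ) (d : ℤ) (e : ℤ) (f : ℤ) (g : ℤ) (h : ℤ) (i : ℤ) (j : ℤ) ≤ 12 := by
  have h1 := chkB_true
  simp only [chkB, List.all_eq_true, List.mem_range, decide_eq_true_eq] at h1
  exact h1 a (by omega) b (by omega) c (by omega) d (by omega) e (by omega) f (by omega) g (by omega) h (by omega) i (by omega) j (by omega)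

theorem tau_det (a b c d e f g h i j : ℤ) : tau a b c d e f g h i j =
   (!![a+e+f+g, -e, -f, -g; -e, b+e+h+i, -h, -i; -f, -h, c+f+h+j, -j; -g, -i, -j, d+g+i+j] : Matrix (Fin 4) (Fin 4) ℤ).det := by
  simp [Matrix.det_succ_row_zero, Fin.sum_univ_succ, Fin.succAbove, tau]
  ring

open Matrix

/-- A design in `D(v,b,k)`: `b` blocks, each a multiset of `k` treatments. -/
abbrev Design (v b k : ℕ) := Fin b → Sym (Fin v) k

variable {v b k : ℕ}

/-- `n_{iB}`: multiplicity of treatment `i` in block `B`. -/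
def mult (d : Design v b k) (i : Fin v) (B : Fin b) : ℕ := (d B : Multiset (Fin v)).count i

/-- replication `r_i` -/
def rep (d : Design v b k) (i : Fin v) : ℕ := ∑ B, mult d i B

/-- concurrence `λ_ij` -/
def lam (d : Design v b k) (i j : Fin v) : ℕ := ∑ B, mult d i B * mult d j B

/-- information matrix `C = R - k⁻¹ N Nᵀ` -/
noncomputable def info (d : Design v b k) : Matrix (Fin v) (Fin v) ℝ :=
  Matrix.diagonal (fun i => (rep d i : ℝ)) -
    (k : ℝ)⁻¹ • ((Matrix.of fun i B => (mult d i B : ℝ)) * (Matrix.of fun i B => (mult d i B : ℝ))ᵀ)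

/-- concurrence graph (adjacency) -/
def conc (d : Design v b k) : SimpleGraph (Fin v) where
  Adj i j := i ≠ j ∧ 0 < lam d i j
  symm := ⟨fun i j h => ⟨h.1.symm, by
    have : lam d j i = lam d i j := by unfold lam; simp [mul_comm]
    rw [this]; exact h.2⟩⟩
  loopless := ⟨fun _ h => h.1 rfl⟩

theorem sum_mult (d : Design v b k) (B : Fin b) : ∑ i, mult d i B = k := by
  unfold mult
  have h1 := Multiset.sum_count_eq_card (s := (Finset.univ : Finset (Fin v))) (m := (d B : Multiset (Fin v)))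
    (fun _ _ => Finset.mem_univ _)
  rw [h1]; exact (d B).2

theorem lam_symm (d : Design v b k) (i j : Fin v) : lam d i j = lam d j i := by
  unfold lam; simp [mul_comm]

theorem info_off (d : Design v b 2) (i j : Fin v) (h : i ≠ j) : info d i j = -(lam d i j : ℝ) / 2 := by
  unfold info lam
  simp [Matrix.sub_apply, Matrix.diagonal_apply_ne _ h, Matrix.mul_apply]
  ring

theorem info_sum (d : Design v b 2) (i : Fin v) : ∑ j, info d i j = 0 := by
  unfold info
  simp only [Matrix.sub_apply, Matrix.smul_apply, Matrix.mul_apply, Matrix.of_apply, Matrix.transpose_apply,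
    Finset.sum_sub_distrib, Matrix.diagonal_apply, smul_eq_mul]
  rw [Finset.sum_ite_eq, if_pos (Finset.mem_univ _), ← Finset.mul_sum, Finset.sum_comm]
  have h1 : ∀ B : Fin b, ∑ j, (mult d i B : ℝ) * (mult d j B : ℝ) = mult d i B * 2 := by
    intro B
    rw [← Finset.mul_sum]
    congr 1
    exact_mod_cast sum_mult d B
  rw [Finset.sum_congr rfl (fun B _ => h1 B), ← Finset.sum_mul]
  unfold rep
  push_cast
  ring

theorem lam_sum_le (d : Design 5 6 2) :
    lam d 0 1 + lam d 0 2 + lam d 0 3 + lam d 0 4 + lam d 1 2 + lam d 1 3 + lam d 1 4 + lam d 2 3 +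
      lam d 2 4 + lam d 3 4 ≤ 6 := by
  unfold lam
  rw [← Finset.sum_add_distrib, ← Finset.sum_add_distrib, ← Finset.sum_add_distrib, ← Finset.sum_add_distrib,
    ← Finset.sum_add_distrib, ← Finset.sum_add_distrib, ← Finset.sum_add_distrib, ← Finset.sum_add_distrib,
    ← Finset.sum_add_distrib]
  refine (Finset.sum_le_sum (g := fun _ => 1) fun B _ => ?_).trans (by simp)
  have h1 := sum_mult d B
  rw [Fin.sum_univ_five] at h1
  generalize mult d 0 B = a at *
  generalize mult d 1 B = b at *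
  generalize mult d 2 B = c at *
  generalize mult d 3 B = e at *
  generalize mult d 4 B = f at *
  have ha : a ≤ 2 := by omega
  have hb : b ≤ 2 := by omega
  have hc : c ≤ 2 := by omega
  have he : e ≤ 2 := by omega
  have hf : f = 2 - a - b - c - e := by omega
  subst hf
  have hs : a + b + c + e ≤ 2 := by omega
  clear h1
  revert hs
  interval_cases a <;> interval_cases b <;> interval_cases c <;> interval_cases e <;> simp

open Polynomial in
/-- `θ` lists the nontrivial eigenvalues of `C`: the characteristic polynomial is `X * ∏ (X - θ_i)`. -/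
def IsNontrivSpec (d : Design v b k) (θ : Fin (v - 1) → ℝ) : Prop :=
  (info d).charpoly = X * ∏ i, (X - C (θ i))

/-- D-optimality in `D(v,b,k)` (connected designs). -/
def DOptimal (d : Design v b k) : Prop :=
  (conc d).Connected ∧ ∃ θ : Fin (v - 1) → ℝ, IsNontrivSpec d θ ∧
    ∀ d' : Design v b k, (conc d').Connected → ∀ θ' : Fin (v - 1) → ℝ, IsNontrivSpec d' θ' →
      ∏ i, θ' i ≤ ∏ i, θ i

/-- the pairwise variance `V_ij = (e_i - e_j)ᵀ C⁻ (e_i - e_j)`, for every generalised inverse `C⁻` -/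
def IsPairVar (d : Design v b k) (i j : Fin v) (V : ℝ) : Prop :=
  (∃ G : Matrix (Fin v) (Fin v) ℝ, info d * G * info d = info d) ∧
  ∀ G : Matrix (Fin v) (Fin v) ℝ, info d * G * info d = info d →
    (Pi.single i 1 - Pi.single j 1) ⬝ᵥ (G *ᵥ (Pi.single i 1 - Pi.single j 1)) = V

noncomputable def JJ : Matrix (Fin 5) (Fin 5) ℝ := Matrix.of fun _ _ => (1 / 5 : ℝ)

theorem info_symm (d : Design v b 2) : (info d)ᵀ = info d := by
  ext i j
  rw [Matrix.transpose_apply]
  by_cases h : i = j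
  · rw [h]
  · rw [info_off d i j h, info_off d j i (Ne.symm h), lam_symm]

theorem info_JJ (d : Design 5 b 2) : info d * JJ = 0 := by
  ext i j
  rw [Matrix.mul_apply]
  simp only [JJ, Matrix.of_apply, Matrix.zero_apply]
  rw [← Finset.sum_mul, info_sum, zero_mul]

theorem det_one_sub (a : ℝ) : (1 - a • JJ : Matrix (Fin 5) (Fin 5) ℝ).det = 1 - a := by
  have h1 : (1 - a • JJ : Matrix (Fin 5) (Fin 5) ℝ) =
      1 + Matrix.replicateCol Unit (fun _ : Fin 5 => -a / 5) * Matrix.replicateRow Unit (fun _ : Fin 5 => (1 : ℝ)) := by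
    ext i j
    simp [JJ, Matrix.mul_apply]
    ring
  rw [h1, Matrix.det_one_add_replicateCol_mul_replicateRow]
  simp [dotProduct, Fin.sum_univ_five]
  ring

theorem prod_eq (d : Design 5 b 2) (θ : Fin (5 - 1) → ℝ) (h : IsNontrivSpec d θ) :
    ∏ i, θ i = (info d + JJ).det := by
  have hsc : ∀ x : ℝ, Matrix.scalar (Fin 5) x = x • (1 : Matrix (Fin 5) (Fin 5) ℝ) := by
    intro x
    ext i j
    simp [Matrix.scalar_apply, Matrix.diagonal_apply, Matrix.one_apply]
  have h1 : ∀ x : ℝ, x ≠ 0 → (x • (1 : Matrix (Fin 5) (Fin 5) ℝ) - info d - JJ).det =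
      (x - 1) * ∏ i, (x - θ i) := by
    intro x hx
    have h2 : (x • (1 : Matrix (Fin 5) (Fin 5) ℝ) - info d - JJ) =
        (x • (1 : Matrix (Fin 5) (Fin 5) ℝ) - info d) * (1 - (1 / x) • JJ) := by
      rw [mul_sub, mul_one, Matrix.mul_smul, sub_mul, info_JJ, sub_zero, Matrix.smul_mul, one_mul,
        smul_smul, one_div, inv_mul_cancel₀ hx, one_smul]
    have h3 := congrArg (Polynomial.eval x) h
    rw [Matrix.eval_charpoly, Polynomial.eval_mul, Polynomial.eval_X, Polynomial.eval_prod, hsc] at h3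
    simp only [Polynomial.eval_sub, Polynomial.eval_X, Polynomial.eval_C] at h3
    rw [h2, Matrix.det_mul, h3, det_one_sub]
    field_simp
  have hc1 : Continuous fun x : ℝ => (x • (1 : Matrix (Fin 5) (Fin 5) ℝ) - info d - JJ).det := by
    apply Continuous.matrix_det
    apply Continuous.sub _ continuous_const
    apply Continuous.sub _ continuous_const
    exact continuous_id.smul continuous_const
  have hc2 : Continuous fun x : ℝ => (x - 1) * ∏ i, (x - θ i) := by fun_prop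
  have h2 := Continuous.ext_on (dense_compl_singleton (0 : ℝ)) hc1 hc2 (fun x hx => h1 x hx)
  have h3 := congrFun h2 0
  simp only [zero_smul, zero_sub] at h3
  have h4 : (-info d - JJ) = -(info d + JJ) := by abel
  rw [h4, Matrix.det_neg, Finset.prod_neg] at h3
  simp at h3
  linarith

theorem exists_spec (d : Design 5 b 2) : ∃ θ : Fin (5 - 1) → ℝ, IsNontrivSpec d θ := by
  have hH : (info d).IsHermitian := by
    rw [Matrix.IsHermitian, Matrix.conjTranspose_eq_transpose_of_trivial, info_symm]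
  have hdet : (info d).det = 0 := by
    apply Matrix.exists_mulVec_eq_zero_iff.1
    refine ⟨fun _ => 1, fun h => by simpa using congrFun h 0, ?_⟩
    ext i
    simp only [Matrix.mulVec, dotProduct, mul_one, Pi.zero_apply]
    exact info_sum d i
  have h1 := hH.det_eq_prod_eigenvalues
  rw [hdet] at h1
  obtain ⟨i0, _, hi0⟩ := Finset.prod_eq_zero_iff.1 h1.symm
  have hi0' : hH.eigenvalues i0 = 0 := by exact_mod_cast hi0
  refine ⟨fun j : Fin 4 => hH.eigenvalues (i0.succAbove j), ?_⟩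
  unfold IsNontrivSpec
  rw [hH.charpoly_eq, Fin.prod_univ_succAbove _ i0, hi0']
  simp

theorem info_diag (d : Design 5 b 2) (i j1 j2 j3 j4 : Fin 5)
    (h : (Finset.univ : Finset (Fin 5)) = {i, j1, j2, j3, j4}) (hne : [i, j1, j2, j3, j4].Nodup) :
    info d i i = ((lam d i j1 : ℝ) + lam d i j2 + lam d i j3 + lam d i j4) / 2 := by
  have h1 := info_sum d i
  simp only [List.nodup_cons, List.mem_cons, List.not_mem_nil, or_false, not_or, List.nodup_nil, not_false_eq_true,
    and_true] at hne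
  obtain ⟨⟨n1, n2, n3, n4⟩, ⟨n5, n6, n7⟩, ⟨n8, n9⟩, n10⟩ := hne
  rw [h, Finset.sum_insert, Finset.sum_insert, Finset.sum_insert, Finset.sum_insert, Finset.sum_singleton,
    info_off d i j1 n1, info_off d i j2 n2, info_off d i j3 n3, info_off d i j4 n4] at h1
  · linarith
  all_goals simp [n1, n2, n3, n4, n5, n6, n7, n8, n9, n10]

theorem info_det (d : Design 5 b 2) : (info d + JJ).det = 5 / 16 *
    (tau (lam d 0 1) (lam d 0 2) (lam d 0 3) (lam d 0 4) (lam d 1 2) (lam d 1 3) (lam d 1 4) (lam d 2 3)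
      (lam d 2 4) (lam d 3 4) : ℝ) := by
  have hM : info d + JJ = !![((lam d 0 1 : ℝ)+lam d 0 2+lam d 0 3+lam d 0 4)/2 + 1/5, -(lam d 0 1 : ℝ)/2 + 1/5, -(lam d 0 2 : ℝ)/2 + 1/5, -(lam d 0 3 : ℝ)/2 + 1/5, -(lam d 0 4 : ℝ)/2 + 1/5;
        -(lam d 0 1 : ℝ)/2 + 1/5, ((lam d 0 1 : ℝ)+lam d 1 2+lam d 1 3+lam d 1 4)/2 + 1/5, -(lam d 1 2 : ℝ)/2 + 1/5, -(lam d 1 3 : ℝ)/2 + 1/5, -(lam d 1 4 : ℝ)/2 + 1/5;
        -(lam d 0 2 : ℝ)/2 + 1/5, -(lam d 1 2 : ℝ)/2 + 1/5, ((lam d 0 2 : ℝ)+lam d 1 2+lam d 2 3+lam d 2 4)/2 + 1/5, -(lam d 2 3 : ℝ)/2 + 1/5, -(lam d 2 4 : ℝ)/2 + 1/5;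
        -(lam d 0 3 : ℝ)/2 + 1/5, -(lam d 1 3 : ℝ)/2 + 1/5, -(lam d 2 3 : ℝ)/2 + 1/5, ((lam d 0 3 : ℝ)+lam d 1 3+lam d 2 3+lam d 3 4)/2 + 1/5, -(lam d 3 4 : ℝ)/2 + 1/5;
        -(lam d 0 4 : ℝ)/2 + 1/5, -(lam d 1 4 : ℝ)/2 + 1/5, -(lam d 2 4 : ℝ)/2 + 1/5, -(lam d 3 4 : ℝ)/2 + 1/5, ((lam d 0 4 : ℝ)+lam d 1 4+lam d 2 4+lam d 3 4)/2 + 1/5] := by
    have hoff : ∀ i j : Fin 5, i ≠ j → (info d + JJ) i j = -(lam d i j : ℝ) / 2 + 1 / 5 := by
      intro i j h
      rw [Matrix.add_apply, info_off d i j h]; rfl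
    have hd0 := info_diag d 0 1 2 3 4 (by decide) (by decide)
    have hd1 := info_diag d 1 0 2 3 4 (by decide) (by decide)
    have hd2 := info_diag d 2 0 1 3 4 (by decide) (by decide)
    have hd3 := info_diag d 3 0 1 2 4 (by decide) (by decide)
    have hd4 := info_diag d 4 0 1 2 3 (by decide) (by decide)
    ext i j
    fin_cases i <;> fin_cases j
    · change (info d) 0 0 + 1 / 5 = _; rw [hd0]; rfl
    · exact hoff 0 1 (by decide)
    · exact hoff 0 2 (by decide)
    · exact hoff 0 3 (by decide)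
    · exact hoff 0 4 (by decide)
    · refine (hoff 1 0 (by decide)).trans ?_; rw [lam_symm d 1 0]; rfl
    · change (info d) 1 1 + 1 / 5 = _; rw [hd1, lam_symm d 1 0]; rfl
    · exact hoff 1 2 (by decide)
    · exact hoff 1 3 (by decide)
    · exact hoff 1 4 (by decide)
    · refine (hoff 2 0 (by decide)).trans ?_; rw [lam_symm d 2 0]; rfl
    · refine (hoff 2 1 (by decide)).trans ?_; rw [lam_symm d 2 1]; rfl
    · change (info d) 2 2 + 1 / 5 = _; rw [hd2, lam_symm d 2 0, lam_symm d 2 1]; rfl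
    · exact hoff 2 3 (by decide)
    · exact hoff 2 4 (by decide)
    · refine (hoff 3 0 (by decide)).trans ?_; rw [lam_symm d 3 0]; rfl
    · refine (hoff 3 1 (by decide)).trans ?_; rw [lam_symm d 3 1]; rfl
    · refine (hoff 3 2 (by decide)).trans ?_; rw [lam_symm d 3 2]; rfl
    · change (info d) 3 3 + 1 / 5 = _; rw [hd3, lam_symm d 3 0, lam_symm d 3 1, lam_symm d 3 2]; rfl
    · exact hoff 3 4 (by decide)
    · refine (hoff 4 0 (by decide)).trans ?_; rw [lam_symm d 4 0]; rfl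
    · refine (hoff 4 1 (by decide)).trans ?_; rw [lam_symm d 4 1]; rfl
    · refine (hoff 4 2 (by decide)).trans ?_; rw [lam_symm d 4 2]; rfl
    · refine (hoff 4 3 (by decide)).trans ?_; rw [lam_symm d 4 3]; rfl
    · change (info d) 4 4 + 1 / 5 = _; rw [hd4, lam_symm d 4 0, lam_symm d 4 1, lam_symm d 4 2, lam_symm d 4 3]; rfl
  rw [hM, det5]
  congr 1
  unfold tau
  push_cast
  simp [Matrix.det_succ_row_zero, Fin.sum_univ_succ, Fin.succAbove, Fin.succ, Matrix.submatrix]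
  ring

/-- the design `K_{2,3}` -/
def d0 : Design 5 6 2 := ![⟨{0, 3}, rfl⟩, ⟨{0, 4}, rfl⟩, ⟨{1, 3}, rfl⟩, ⟨{1, 4}, rfl⟩, ⟨{2, 3}, rfl⟩,
  ⟨{2, 4}, rfl⟩]

theorem lam01 : lam d0 0 1 = 0 := by decide
theorem lam02 : lam d0 0 2 = 0 := by decide
theorem lam03 : lam d0 0 3 = 1 := by decide
theorem lam04 : lam d0 0 4 = 1 := by decide
theorem lam12 : lam d0 1 2 = 0 := by decide
theorem lam13 : lam d0 1 3 = 1 := by decide
theorem lam14 : lam d0 1 4 = 1 := by decide
theorem lam23 : lam d0 2 3 = 1 := by decide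
theorem lam24 : lam d0 2 4 = 1 := by decide
theorem lam34 : lam d0 3 4 = 0 := by decide

theorem info_d0 : info d0 = !![1, 0, 0, -1/2, -1/2; 0, 1, 0, -1/2, -1/2; 0, 0, 1, -1/2, -1/2;
    -1/2, -1/2, -1/2, 3/2, 0; -1/2, -1/2, -1/2, 0, 3/2] := by
  have hd0 := info_diag d0 0 1 2 3 4 (by decide) (by decide)
  have hd1 := info_diag d0 1 0 2 3 4 (by decide) (by decide)
  have hd2 := info_diag d0 2 0 1 3 4 (by decide) (by decide)
  have hd3 := info_diag d0 3 0 1 2 4 (by decide) (by decide)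
  have hd4 := info_diag d0 4 0 1 2 3 (by decide) (by decide)
  rw [lam01, lam02, lam03, lam04] at hd0
  rw [lam_symm d0 1 0, lam01, lam12, lam13, lam14] at hd1
  rw [lam_symm d0 2 0, lam_symm d0 2 1, lam02, lam12, lam23, lam24] at hd2
  rw [lam_symm d0 3 0, lam_symm d0 3 1, lam_symm d0 3 2, lam03, lam13, lam23, lam34] at hd3
  rw [lam_symm d0 4 0, lam_symm d0 4 1, lam_symm d0 4 2, lam_symm d0 4 3, lam04, lam14, lam24, lam34] at hd4
  have h01 := info_off d0 0 1 (by decide)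
  have h02 := info_off d0 0 2 (by decide)
  have h03 := info_off d0 0 3 (by decide)
  have h04 := info_off d0 0 4 (by decide)
  have h12 := info_off d0 1 2 (by decide)
  have h13 := info_off d0 1 3 (by decide)
  have h14 := info_off d0 1 4 (by decide)
  have h23 := info_off d0 2 3 (by decide)
  have h24 := info_off d0 2 4 (by decide)
  have h34 := info_off d0 3 4 (by decide)
  have h10 := info_off d0 1 0 (by decide)
  have h20 := info_off d0 2 0 (by decide)
  have h30 := info_off d0 3 0 (by decide)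
  have h40 := info_off d0 4 0 (by decide)
  have h21 := info_off d0 2 1 (by decide)
  have h31 := info_off d0 3 1 (by decide)
  have h41 := info_off d0 4 1 (by decide)
  have h32 := info_off d0 3 2 (by decide)
  have h42 := info_off d0 4 2 (by decide)
  have h43 := info_off d0 4 3 (by decide)
  rw [lam_symm] at h10 h20 h30 h40 h21 h31 h41 h32 h42 h43
  rw [lam01] at h01 h10
  rw [lam02] at h02 h20
  rw [lam03] at h03 h30
  rw [lam04] at h04 h40
  rw [lam12] at h12 h21
  rw [lam13] at h13 h31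
  rw [lam14] at h14 h41
  rw [lam23] at h23 h32
  rw [lam24] at h24 h42
  rw [lam34] at h34 h43
  ext i j
  fin_cases i <;> fin_cases j <;>
    simp [hd0, hd1, hd2, hd3, hd4, h01, h02, h03, h04, h12, h13, h14, h23, h24, h34, h10, h20, h30, h40,
      h21, h31, h41, h32, h42, h43] <;> norm_num

theorem pairVar (x : Fin 5 → ℝ) (i j : Fin 5) (V : ℝ)
    (hx : info d0 *ᵥ x = Pi.single i 1 - Pi.single j 1) (hV : x i - x j = V) : IsPairVar d0 i j V := by
  constructor
  · refine ⟨!![4/3, 1/3, 1/3, 2/3, 0; 1/3, 4/3, 1/3, 2/3, 0; 1/3, 1/3, 4/3, 2/3, 0; 2/3, 2/3, 2/3, 4/3, 0;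
      0, 0, 0, 0, 0], ?_⟩
    rw [info_d0]
    ext i j
    fin_cases i <;> fin_cases j <;> simp [Matrix.mul_apply, Fin.sum_univ_five] <;> norm_num
  · intro G hG
    rw [← hx]
    have h1 : (info d0 *ᵥ x) = x ᵥ* info d0 := by
      rw [← Matrix.vecMul_transpose, info_symm]
    conv_lhs => rw [h1]
    rw [← Matrix.dotProduct_mulVec, ← h1, Matrix.mulVec_mulVec, Matrix.mulVec_mulVec, hG, hx,
      dotProduct_sub, dotProduct_single, dotProduct_single]
    simpa using hV

theorem d0_conn : (conc d0).Connected := by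
  have hadj : ∀ i j : Fin 5, i ≠ j → 0 < lam d0 i j → (conc d0).Adj i j := fun i j h1 h2 => ⟨h1, h2⟩
  have r3 : ∀ i : Fin 5, (conc d0).Reachable 0 i := by
    have a03 := (hadj 0 3 (by decide) (by decide)).reachable
    have a04 := (hadj 0 4 (by decide) (by decide)).reachable
    have a31 := (hadj 3 1 (by decide) (by decide)).reachable
    have a32 := (hadj 3 2 (by decide) (by decide)).reachable
    intro i
    fin_cases i
    · exact SimpleGraph.Reachable.refl _
    · exact a03.trans a31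
    · exact a03.trans a32
    · exact a03
    · exact a04
  exact { preconnected := fun i j => (r3 i).symm.trans (r3 j), nonempty := ⟨0⟩ }

/-- There is a D-optimal design in `D(5,6,2)` with `λ_ij > λ_mn` but `V_ij ≥ V_mn`. -/
theorem result : ∃ d : Design 5 6 2, DOptimal d ∧ ∃ i j m n : Fin 5, i ≠ j ∧ m ≠ n ∧
    lam d m n < lam d i j ∧ ∃ V V' : ℝ, IsPairVar d i j V ∧ IsPairVar d m n V' ∧ V' ≤ V := by
  refine ⟨d0, ⟨d0_conn, ?_⟩, 0, 3, 3, 4, by decide, by decide, by decide, 4 / 3, 4 / 3, ?_, ?_, le_rfl⟩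
  · obtain ⟨θ, hθ⟩ := exists_spec d0
    refine ⟨θ, hθ, fun d' _ θ' hθ' => ?_⟩
    rw [prod_eq d0 θ hθ, prod_eq d' θ' hθ', info_det, info_det]
    have h1 := chk _ _ _ _ _ _ _ _ _ _ (lam_sum_le d')
    have h2 : tau (lam d0 0 1) (lam d0 0 2) (lam d0 0 3) (lam d0 0 4) (lam d0 1 2) (lam d0 1 3) (lam d0 1 4)
      (lam d0 2 3) (lam d0 2 4) (lam d0 3 4) = 12 := by
      rw [lam01, lam02, lam03, lam04, lam12, lam13, lam14, lam23, lam24, lam34]; decide
    rw [h2]
    have h3 : (tau (lam d' 0 1) (lam d' 0 2) (lam d' 0 3) (lam d' 0 4) (lam d' 1 2) (lam d' 1 3) (lam d' 1 4)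
      (lam d' 2 3) (lam d' 2 4) (lam d' 3 4) : ℝ) ≤ (12 : ℤ) := by exact_mod_cast h1
    exact mul_le_mul_of_nonneg_left h3 (by norm_num)
  · apply pairVar ![1, 0, 0, -1/3, 1/3]
    · rw [info_d0]
      ext i
      fin_cases i <;> simp [Matrix.mulVec, dotProduct, Fin.sum_univ_five, Pi.single_apply] <;> norm_num
    · simp; norm_num
  · apply pairVar ![0, 0, 0, 2/3, -2/3]
    · rw [info_d0]
      ext i
      fin_cases i <;> simp [Matrix.mulVec, dotProduct, Fin.sum_univ_five, Pi.single_apply] <;> norm_num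
    · simp; norm_num

end Pool.Agent.Results.MP_c32163_co.DOptimalTie
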